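import Pool.Agent.MP_c78e8e_al.Defs

namespace Pool.Agent.MP_c78e8e_al.Sp

/-- The elements `x` satisfy every relation that the elements `a` satisfy. -/
def Obeys {M G : Type} [Monoid M] [Group G] (a : List M) (x : List G) : Prop :=
  a.length = x.length ∧ ∀ u g h, (u, g) ∈ Submonoid.closure {p | p ∈ a.zip x} →
    (u, h) ∈ Submonoid.closure {p | p ∈ a.zip x} → g = h

/-- `G` is simple of order `N` and is generated by a homomorphic image of the group generated by `a`
and a homomorphic image of the group generated by `b`, the first `k` generators being identified. -/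
def Spor {M M' : Type} [Monoid M] [Monoid M'] (G : Type) [Group G] (N : ℕ) (a : List M)
    (b : List M') (k : ℕ) : Prop :=
  IsSimpleGroup G ∧ Nat.card G = N ∧ ∃ x y : List G, Obeys a x ∧ Obeys b y ∧
    x.take k = y.take k ∧ Subgroup.closure {g | g ∈ x ++ y} = ⊤

/-- Words in the generators `g`, written as decimal numbers: the digit `i` is the generator number
`i`, the last digit comes first. -/
def wn {M : Type} [Monoid M] (g : List M) (w : List ℕ) : List M :=
  w.map fun c => ((Nat.digits 10 c).map fun i => g.getD (i - 1) 1).prod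

/-- The matrix of the permutation with the cycles `c`. -/
def pm (p d : ℕ) (c : List (List ℕ)) : Matrix (Fin d) (Fin d) (ZMod p) :=
  Matrix.of fun i j => if (c.map List.formPerm).prod i = j then 1 else 0

/-- The matrix whose entries are the digits of `c` in base `p`. -/
def dm (p d c : ℕ) : Matrix (Fin d) (Fin d) (ZMod p) :=
  Matrix.of fun i j => (c / p ^ (d * i + j) : ℕ)

/-- Conway's generators of `·0`, reduced modulo three: the three standard generators of `M₂₄` and
`ξ_T`, where `s` numbers the tetrads of the sextet of `T = {0, 3, 15, ∞}`. -/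
def con : List (Matrix (Fin 24) (Fin 24) (ZMod 3)) :=
  let s (i : ℕ) : ℕ := [0, 1, 2, 0, 3, 4, 4, 2, 5, 4, 3, 2, 1, 2, 5, 0, 3, 3, 5, 4, 5, 1, 1, 0].getD i 0
  [[List.range 23], [[2, 16, 9, 6, 8], [3, 12, 13, 18, 4], [7, 17, 10, 11, 22], [14, 19, 21, 20, 15]],
    [[0, 23], [1, 22], [2, 11], [3, 15], [4, 17], [5, 9], [6, 19], [7, 13], [8, 20], [10, 16],
      [12, 21], [14, 18]]].map (pm 3 24) ++
  [Matrix.of fun i j : Fin 24 => if s i = s j then
    (if s i = 0 then -1 else 1) * (2⁻¹ - if i = j then 1 else 0) else 0]

/-- The generators `s 0 * s i` of the rotation subgroup of the Coxeter group `Y p q r`; `s k` is the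
simple reflection at the node `k`, and `u i` is the neighbour of `i` towards the centre `0`. -/
def rot (p q r : ℕ) : List (Matrix (Fin (p + q + r + 1)) (Fin (p + q + r + 1)) ℤ) :=
  let u (i : ℕ) : ℕ := if i = p + 1 ∨ i = p + q + 1 then 0 else i - 1
  let s (k : ℕ) : Matrix _ _ ℤ := Matrix.of fun i j : Fin (p + q + r + 1) =>
    if i = j then if k = i then -1 else 1 else if k = i ∧ (u i = j ∨ u j = i) then 1 else 0
  (List.range (p + q + r)).map fun i => s 0 * s (i + 1)

end Pool.Agent.MP_c78e8e_al.Sp
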